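import Pool.Agent.H43.G.R_seed8.Helper112.Lp.Defs

open Finset

namespace Pool.Agent.Helper112.LP.Kba

theorem bh_trunc (D : Finset ℕ) (b : ℕ) :
    ∑ U ∈ D.powerset.filter (fun U => U.card ≤ b), ((-1 : ℝ)) ^ U.card =
      ∑ r ∈ range (b + 1), (-1 : ℝ) ^ r * (D.card.choose r : ℝ) := by
  have hmaps : ∀ U ∈ D.powerset.filter (fun U => U.card ≤ b), U.card ∈ range (b + 1) := by
    intro U hU
    rw [mem_filter] at hU
    rw [mem_range]
    exact Nat.lt_succ_of_le hU.2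
  rw [← sum_fiberwise_of_maps_to hmaps]
  apply sum_congr rfl
  intro r hr
  rw [mem_range] at hr
  have h1 : (D.powerset.filter (fun U => U.card ≤ b)).filter (fun U => U.card = r) =
      powersetCard r D := by
    rw [powersetCard_eq_filter, filter_filter]
    apply filter_congr
    intro U _
    constructor
    · exact fun h => h.2
    · exact fun h => ⟨by omega, h⟩
  rw [h1]
  have h2 : ∀ U ∈ powersetCard r D, ((-1 : ℝ)) ^ U.card = (-1) ^ r := by
    intro U hU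
    rw [(mem_powersetCard.1 hU).2]
  rw [sum_congr rfl h2, sum_const, card_powersetCard, nsmul_eq_mul]
  ring

theorem bh_y (P : Finset ℕ) (b N : ℕ) :
    (∑ U ∈ P.powerset.filter (fun U => U.card ≤ b),
      if ∀ l ∈ U, l ∣ N then ((-1 : ℝ)) ^ U.card else 0) =
      ∑ r ∈ range (b + 1), (-1 : ℝ) ^ r * (((P.filter (fun l => l ∣ N)).card).choose r : ℝ) := by
  rw [← bh_trunc, ← sum_filter]
  apply sum_congr _ (fun _ _ => rfl)
  ext U
  simp only [mem_filter, mem_powerset]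
  constructor
  · rintro ⟨⟨h1, h2⟩, h3⟩
    refine ⟨fun l hl => ?_, h2⟩
    rw [mem_filter]
    exact ⟨h1 hl, h3 l hl⟩
  · rintro ⟨h1, h2⟩
    refine ⟨⟨fun l hl => (mem_filter.1 (h1 hl)).1, h2⟩, fun l hl => (mem_filter.1 (h1 hl)).2⟩

theorem bh_e (P : Finset ℕ) (b N : ℕ) :
    (∑ U ∈ powersetCard (b + 1) P, if ∀ l ∈ U, l ∣ N then (1 : ℝ) else 0) =
      (((P.filter (fun l => l ∣ N)).card).choose (b + 1) : ℝ) := by
  rw [← sum_filter, sum_const, nsmul_eq_mul, mul_one, ← card_powersetCard]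
  congr 2
  ext U
  simp only [mem_filter, mem_powersetCard]
  constructor
  · rintro ⟨⟨h1, h2⟩, h3⟩
    refine ⟨fun l hl => ?_, h2⟩
    rw [mem_filter]
    exact ⟨h1 hl, h3 l hl⟩
  · rintro ⟨h1, h2⟩
    refine ⟨⟨fun l hl => (mem_filter.1 (h1 hl)).1, h2⟩, fun l hl => (mem_filter.1 (h1 hl)).2⟩

theorem bh_local (P : Finset ℕ) (b : ℕ) (hb : Even b) (N : ℕ) :
    (0 : ℝ) ≤ (if ∀ l ∈ P, ¬ l ∣ N then (1 : ℝ) else 0) ∧
    (if ∀ l ∈ P, ¬ l ∣ N then (1 : ℝ) else 0) ≤
      (∑ U ∈ P.powerset.filter (fun U => U.card ≤ b),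
        if ∀ l ∈ U, l ∣ N then ((-1 : ℝ)) ^ U.card else 0) ∧
    (∑ U ∈ P.powerset.filter (fun U => U.card ≤ b),
        if ∀ l ∈ U, l ∣ N then ((-1 : ℝ)) ^ U.card else 0) -
      (if ∀ l ∈ P, ¬ l ∣ N then (1 : ℝ) else 0) ≤
      (∑ U ∈ powersetCard (b + 1) P, if ∀ l ∈ U, l ∣ N then (1 : ℝ) else 0) := by
  rw [bh_y, bh_e]
  rcases Nat.eq_zero_or_pos ((P.filter (fun l => l ∣ N)).card) with h0 | h0
  · have h1 : ∀ l ∈ P, ¬ l ∣ N := by
      intro l hl hd
      rw [card_eq_zero] at h0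
      have : l ∈ P.filter (fun l => l ∣ N) := mem_filter.2 ⟨hl, hd⟩
      rw [h0] at this
      exact absurd this (notMem_empty l)
    rw [if_pos h1, h0]
    have h2 : ∑ r ∈ range (b + 1), (-1 : ℝ) ^ r * ((Nat.choose 0 r : ℕ) : ℝ) = 1 := by
      rw [sum_range_succ']
      simp
    rw [h2]
    refine ⟨zero_le_one, le_rfl, ?_⟩
    rw [sub_self]
    positivity
  · obtain ⟨t, ht⟩ := Nat.exists_eq_succ_of_ne_zero h0.ne'
    have h1 : ¬ ∀ l ∈ P, ¬ l ∣ N := by
      intro h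
      obtain ⟨l, hl⟩ := card_pos.1 h0
      rw [mem_filter] at hl
      exact h l hl.1 hl.2
    rw [if_neg h1, ht]
    have h2 : ∑ r ∈ range (b + 1), (-1 : ℝ) ^ r * ((Nat.choose (t + 1) r : ℕ) : ℝ) =
        (Nat.choose t b : ℝ) := by
      have h3 := Int.alternating_sum_range_choose_eq_choose (n := t) (m := b)
      have h4 := congrArg (fun z : ℤ => (z : ℝ)) h3
      push_cast at h4
      rw [h4, hb.neg_one_pow, one_mul]
    rw [Nat.succ_eq_add_one, h2]
    refine ⟨le_rfl, by positivity, ?_⟩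
    rw [sub_zero, Nat.choose_succ_succ]
    push_cast
    have : (0 : ℝ) ≤ (Nat.choose t (b + 1) : ℝ) := by positivity
    simp only [Nat.succ_eq_add_one]
    linarith

theorem bh_prod_sub {ι : Type*} [DecidableEq ι] (s : Finset ι) (x y e : ι → ℝ)
    (h0 : ∀ i, 0 ≤ x i) (h1 : ∀ i, x i ≤ y i) (h2 : ∀ i, y i - x i ≤ e i) :
    ∏ i ∈ s, y i - ∏ i ∈ s, x i ≤ ∑ k ∈ s, e k * ∏ i ∈ s.erase k, y i := by
  induction s using Finset.induction_on with
  | empty => simp
  | insert a s ha ih =>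
    rw [prod_insert ha, prod_insert ha, sum_insert ha, erase_insert ha]
    have hsum : ∑ k ∈ s, e k * ∏ i ∈ (insert a s).erase k, y i =
        y a * ∑ k ∈ s, e k * ∏ i ∈ s.erase k, y i := by
      rw [mul_sum]
      apply sum_congr rfl
      intro k hk
      have hka : a ≠ k := fun h => ha (h ▸ hk)
      rw [erase_insert_of_ne hka, prod_insert (fun h => ha (mem_of_mem_erase h))]
      ring
    rw [hsum]
    have hY : 0 ≤ ∏ i ∈ s, y i := prod_nonneg (fun i _ => (h0 i).trans (h1 i))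
    have hXY : ∏ i ∈ s, x i ≤ ∏ i ∈ s, y i := prod_le_prod (fun i _ => h0 i) (fun i _ => h1 i)
    have hya : 0 ≤ y a := (h0 a).trans (h1 a)
    have e1 : (y a - x a) * ∏ i ∈ s, y i ≤ e a * ∏ i ∈ s, y i :=
      mul_le_mul_of_nonneg_right (h2 a) hY
    have e2 : x a * (∏ i ∈ s, y i - ∏ i ∈ s, x i) ≤ y a * (∏ i ∈ s, y i - ∏ i ∈ s, x i) :=
      mul_le_mul_of_nonneg_right (h1 a) (by linarith)
    have e3 := mul_le_mul_of_nonneg_left ih hya
    linarith

theorem bh_expand (m : ℕ) (g : ℕ → ℝ) (Ω : Type) (S : Finset Ω) (n : Ω → ℕ) (X E : ℝ)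
    (F : Fin m → Finset (Finset ℕ)) (c : Fin m → Finset ℕ → ℝ) (hc : ∀ i U, |c i U| ≤ 1)
    (H : ∀ T ∈ Fintype.piFinset F,
      |((S.filter (fun ω => ∀ i, ∀ l ∈ T i, l ∣ n ω)).card : ℝ) - X * ∏ i, ∏ l ∈ T i, g l|
        ≤ 3 ^ (∑ i, (T i).card) * E) :
    |(∑ ω ∈ S, ∏ i, ∑ U ∈ F i, if ∀ l ∈ U, l ∣ n ω then c i U else 0) -
      X * ∏ i, ∑ U ∈ F i, c i U * ∏ l ∈ U, g l| ≤ E * ∏ i, ∑ U ∈ F i, (3 : ℝ) ^ U.card := by
  have h1 : (∑ ω ∈ S, ∏ i, ∑ U ∈ F i, if ∀ l ∈ U, l ∣ n ω then c i U else 0) =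
      ∑ T ∈ Fintype.piFinset F, (∏ i, c i (T i)) *
        ((S.filter (fun ω => ∀ i, ∀ l ∈ T i, l ∣ n ω)).card : ℝ) := by
    have h2 : ∀ ω ∈ S, (∏ i, ∑ U ∈ F i, if ∀ l ∈ U, l ∣ n ω then c i U else 0) =
        ∑ T ∈ Fintype.piFinset F, (∏ i, c i (T i)) *
          (if ∀ i, ∀ l ∈ T i, l ∣ n ω then (1 : ℝ) else 0) := by
      intro ω _
      rw [prod_univ_sum]
      apply sum_congr rfl
      intro T _
      rw [Fintype.prod_ite_zero]
      split_ifs <;> simp
    rw [sum_congr rfl h2, sum_comm]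
    apply sum_congr rfl
    intro T _
    rw [← mul_sum, sum_boole]
  have h3 : X * ∏ i, ∑ U ∈ F i, c i U * ∏ l ∈ U, g l =
      ∑ T ∈ Fintype.piFinset F, (∏ i, c i (T i)) * (X * ∏ i, ∏ l ∈ T i, g l) := by
    rw [prod_univ_sum, mul_sum]
    apply sum_congr rfl
    intro T _
    rw [prod_mul_distrib]
    ring
  rw [h1, h3, ← sum_sub_distrib]
  refine (abs_sum_le_sum_abs _ _).trans ?_
  rw [prod_univ_sum, mul_sum]
  apply sum_le_sum
  intro T hT
  rw [← mul_sub, abs_mul, prod_pow_eq_pow_sum]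
  have h4 : |∏ i, c i (T i)| ≤ 1 := by
    rw [abs_prod]
    exact prod_le_one (fun _ _ => abs_nonneg _) (fun i _ => hc i (T i))
  have h5 := H T hT
  calc |∏ i, c i (T i)| * |((S.filter (fun ω => ∀ i, ∀ l ∈ T i, l ∣ n ω)).card : ℝ) -
        X * ∏ i, ∏ l ∈ T i, g l| ≤ 1 * (3 ^ (∑ i, (T i).card) * E) :=
        mul_le_mul h4 h5 (abs_nonneg _) zero_le_one
    _ = E * 3 ^ (∑ i, (T i).card) := by ring

/- TARGET -/
/-- BHa: abstract Brun-Hooley inequalities -/
theorem brun_hooley_abs (m : ℕ) (P : Fin m → Finset ℕ)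
    (b : Fin m → ℕ) (hb : ∀ i, Even (b i)) (g : ℕ → ℝ)
    (Ω : Type) (S : Finset Ω) (n : Ω → ℕ) (X E : ℝ) (hX : 0 ≤ X) (hE : 0 ≤ E)
    (H : ∀ T : Fin m → Finset ℕ, (∀ i, T i ⊆ P i) →
      (∃ k : ℕ, ∀ i, (T i).card ≤ b i + if (i : ℕ) = k then 1 else 0) →
      |((S.filter (fun ω => ∀ i, ∀ l ∈ T i, l ∣ n ω)).card : ℝ) - X * ∏ i, ∏ l ∈ T i, g l|
        ≤ 3 ^ (∑ i, (T i).card) * E) :
    ((S.filter (fun ω => ∀ i, ∀ l ∈ P i, ¬ l ∣ n ω)).card : ℝ) ≤
      X * (∏ i, ∑ U ∈ (P i).powerset.filter (fun U => U.card ≤ b i), (-1) ^ U.card * ∏ l ∈ U, g l)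
      + E * ∏ i, ∑ U ∈ (P i).powerset.filter (fun U => U.card ≤ b i + 1), (3 : ℝ) ^ U.card ∧
    X * ((∏ i, ∑ U ∈ (P i).powerset.filter (fun U => U.card ≤ b i), (-1) ^ U.card * ∏ l ∈ U, g l)
      - ∑ k, (∑ U ∈ (P k).powersetCard (b k + 1), ∏ l ∈ U, g l) *
        ∏ i ∈ univ.erase k, ∑ U ∈ (P i).powerset.filter (fun U => U.card ≤ b i),
          (-1) ^ U.card * ∏ l ∈ U, g l)
      - (m + 1) * E * ∏ i, ∑ U ∈ (P i).powerset.filter (fun U => U.card ≤ b i + 1),
        (3 : ℝ) ^ U.card ≤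
      ((S.filter (fun ω => ∀ i, ∀ l ∈ P i, ¬ l ∣ n ω)).card : ℝ) := by
  classical
  set x : Ω → Fin m → ℝ := fun ω i => if ∀ l ∈ P i, ¬ l ∣ n ω then (1 : ℝ) else 0 with hx
  set y : Ω → Fin m → ℝ := fun ω i => ∑ U ∈ (P i).powerset.filter (fun U => U.card ≤ b i),
        if ∀ l ∈ U, l ∣ n ω then ((-1 : ℝ)) ^ U.card else 0 with hy
  set e : Ω → Fin m → ℝ := fun ω i => ∑ U ∈ powersetCard (b i + 1) (P i),
        if ∀ l ∈ U, l ∣ n ω then (1 : ℝ) else 0 with he
  have hloc : ∀ ω i, 0 ≤ x ω i ∧ x ω i ≤ y ω i ∧ y ω i - x ω i ≤ e ω i := fun ω i =>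
    bh_local (P i) (b i) (hb i) (n ω)
  set Q : ℝ := ∏ i, ∑ U ∈ (P i).powerset.filter (fun U => U.card ≤ b i + 1),
        (3 : ℝ) ^ U.card with hQ
  set Tr : Fin m → ℝ := fun i => ∑ U ∈ (P i).powerset.filter (fun U => U.card ≤ b i),
    (-1) ^ U.card * ∏ l ∈ U, g l with hTr
  set Er : Fin m → ℝ := fun i => ∑ U ∈ (P i).powersetCard (b i + 1), ∏ l ∈ U, g l with hEr
  have hcard : ((S.filter (fun ω => ∀ i, ∀ l ∈ P i, ¬ l ∣ n ω)).card : ℝ) =
      ∑ ω ∈ S, ∏ i, x ω i := by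
    rw [← sum_boole]
    apply sum_congr rfl
    intro ω _
    simp only [hx]
    rw [Fintype.prod_ite_zero]
    simp
  have hsub1 : ∀ i, (P i).powerset.filter (fun U => U.card ≤ b i) ⊆
      (P i).powerset.filter (fun U => U.card ≤ b i + 1) := by
    intro i U hU
    rw [mem_filter] at hU ⊢
    exact ⟨hU.1, by omega⟩
  have hsub2 : ∀ i, powersetCard (b i + 1) (P i) ⊆
      (P i).powerset.filter (fun U => U.card ≤ b i + 1) := by
    intro i U hU
    rw [mem_powersetCard] at hU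
    rw [mem_filter, mem_powerset]
    exact ⟨hU.1, hU.2.le⟩
  -- (a)
  have hA : |(∑ ω ∈ S, ∏ i, y ω i) - X * ∏ i, Tr i| ≤ E * Q := by
    have h1 := bh_expand m g Ω S n X E
      (fun i => (P i).powerset.filter (fun U => U.card ≤ b i)) (fun _ U => (-1) ^ U.card)
      (by intro i U; rw [abs_neg_one_pow]) (by
        intro T hT
        rw [Fintype.mem_piFinset] at hT
        apply H T
        · intro i
          have := hT i
          rw [mem_filter, mem_powerset] at this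
          exact this.1
        · refine ⟨m, fun i => ?_⟩
          have := hT i
          rw [mem_filter, mem_powerset] at this
          exact this.2.trans (Nat.le_add_right _ _))
    refine h1.trans ?_
    apply mul_le_mul_of_nonneg_left _ hE
    apply prod_le_prod
    · intro i _
      positivity
    · intro i _
      apply sum_le_sum_of_subset_of_nonneg (hsub1 i)
      intro U _ _
      positivity
  -- (b)
  have hB : ∀ k : Fin m, |(∑ ω ∈ S, e ω k * ∏ i ∈ univ.erase k, y ω i) -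
      X * (Er k * ∏ i ∈ univ.erase k, Tr i)| ≤ E * Q := by
    intro k
    have h1 := bh_expand m g Ω S n X E
      (fun i => if i = k then powersetCard (b i + 1) (P i) else
        (P i).powerset.filter (fun U => U.card ≤ b i))
      (fun i U => if i = k then 1 else (-1) ^ U.card)
      (by intro i U; split_ifs <;> simp) (by
        intro T hT
        rw [Fintype.mem_piFinset] at hT
        apply H T
        · intro i
          have := hT i
          split_ifs at this with hik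
          · rw [mem_powersetCard] at this
            exact this.1
          · rw [mem_filter, mem_powerset] at this
            exact this.1
        · refine ⟨k, fun i => ?_⟩
          have := hT i
          split_ifs at this with hik
          · rw [mem_powersetCard] at this
            rw [if_pos (by rw [hik])]
            exact this.2.le
          · rw [mem_filter, mem_powerset] at this
            exact this.2.trans (Nat.le_add_right _ _))
    have h2 : ∀ f1 f2 : Fin m → ℝ, (∏ i, if i = k then f1 i else f2 i) =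
        f1 k * ∏ i ∈ univ.erase k, f2 i := by
      intro f1 f2
      rw [← mul_prod_erase univ _ (mem_univ k), if_pos rfl]
      congr 1
      apply prod_congr rfl
      intro i hi
      rw [if_neg (ne_of_mem_erase hi)]
    have h3 : (∑ ω ∈ S, e ω k * ∏ i ∈ univ.erase k, y ω i) =
        ∑ ω ∈ S, ∏ i, ∑ U ∈ (if i = k then powersetCard (b i + 1) (P i) else
        (P i).powerset.filter (fun U => U.card ≤ b i)), if ∀ l ∈ U, l ∣ n ω then
          (if i = k then (1 : ℝ) else (-1) ^ U.card) else 0 := by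
      apply sum_congr rfl
      intro ω _
      rw [← h2 (e ω) (y ω)]
      apply prod_congr rfl
      intro i _
      by_cases hik : i = k
      · simp only [if_pos hik, he]
      · simp only [if_neg hik, hy]
    have h4 : X * (Er k * ∏ i ∈ univ.erase k, Tr i) =
        X * ∏ i, ∑ U ∈ (if i = k then powersetCard (b i + 1) (P i) else
        (P i).powerset.filter (fun U => U.card ≤ b i)),
          (if i = k then (1 : ℝ) else (-1) ^ U.card) * ∏ l ∈ U, g l := by
      rw [← h2 Er Tr]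
      congr 1
      apply prod_congr rfl
      intro i _
      by_cases hik : i = k
      · simp only [if_pos hik, hEr, one_mul]
      · simp only [if_neg hik, hTr]
    rw [h3, h4]
    refine h1.trans ?_
    apply mul_le_mul_of_nonneg_left _ hE
    apply prod_le_prod
    · intro i _
      positivity
    · intro i _
      apply sum_le_sum_of_subset_of_nonneg
      · split_ifs
        · exact hsub2 i
        · exact hsub1 i
      · intro U _ _
        positivity
  have hQ0 : 0 ≤ Q := by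
    apply prod_nonneg
    intro i _
    positivity
  rw [hcard]
  constructor
  · have h1 : ∑ ω ∈ S, ∏ i, x ω i ≤ ∑ ω ∈ S, ∏ i, y ω i := by
      apply sum_le_sum
      intro ω _
      exact prod_le_prod (fun i _ => (hloc ω i).1) (fun i _ => (hloc ω i).2.1)
    have h2 := (abs_le.1 hA).2
    linarith
  · have h1 : ∑ ω ∈ S, ∏ i, y ω i - ∑ ω ∈ S, ∏ i, x ω i ≤
        ∑ k, ∑ ω ∈ S, e ω k * ∏ i ∈ univ.erase k, y ω i := by
      rw [sum_comm, ← sum_sub_distrib]
      apply sum_le_sum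
      intro ω _
      exact bh_prod_sub univ (x ω) (y ω) (e ω) (fun i => (hloc ω i).1) (fun i => (hloc ω i).2.1)
        (fun i => (hloc ω i).2.2)
    have h2 : ∑ k, ∑ ω ∈ S, e ω k * ∏ i ∈ univ.erase k, y ω i ≤
        ∑ k : Fin m, (X * (Er k * ∏ i ∈ univ.erase k, Tr i) + E * Q) := by
      apply sum_le_sum
      intro k _
      have := (abs_le.1 (hB k)).2
      linarith
    rw [sum_add_distrib, sum_const, card_univ, Fintype.card_fin, nsmul_eq_mul, ← mul_sum] at h2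
    have h3 := (abs_le.1 hA).1
    have h4 : X * ((∏ i, Tr i) - ∑ k, Er k * ∏ i ∈ univ.erase k, Tr i) - (m + 1) * E * Q =
      X * (∏ i, Tr i) - E * Q - (X * (∑ k, Er k * ∏ i ∈ univ.erase k, Tr i) + m * (E * Q)) := by
      ring
    rw [h4]
    linarith

end Pool.Agent.Helper112.LP.Kba

namespace Pool.Agent.Helper112.LP

/-- BHa: abstract Brun-Hooley inequalities -/
theorem brun_hooley_abs (m : ℕ) (P : Fin m → Finset ℕ)
    (b : Fin m → ℕ) (hb : ∀ i, Even (b i)) (g : ℕ → ℝ)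
    (Ω : Type) (S : Finset Ω) (n : Ω → ℕ) (X E : ℝ) (hX : 0 ≤ X) (hE : 0 ≤ E)
    (H : ∀ T : Fin m → Finset ℕ, (∀ i, T i ⊆ P i) →
      (∃ k : ℕ, ∀ i, (T i).card ≤ b i + if (i : ℕ) = k then 1 else 0) →
      |((S.filter (fun ω => ∀ i, ∀ l ∈ T i, l ∣ n ω)).card : ℝ) - X * ∏ i, ∏ l ∈ T i, g l|
        ≤ 3 ^ (∑ i, (T i).card) * E) :
    ((S.filter (fun ω => ∀ i, ∀ l ∈ P i, ¬ l ∣ n ω)).card : ℝ) ≤
      X * (∏ i, ∑ U ∈ (P i).powerset.filter (fun U => U.card ≤ b i), (-1) ^ U.card * ∏ l ∈ U, g l)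
      + E * ∏ i, ∑ U ∈ (P i).powerset.filter (fun U => U.card ≤ b i + 1), (3 : ℝ) ^ U.card ∧
    X * ((∏ i, ∑ U ∈ (P i).powerset.filter (fun U => U.card ≤ b i), (-1) ^ U.card * ∏ l ∈ U, g l)
      - ∑ k, (∑ U ∈ (P k).powersetCard (b k + 1), ∏ l ∈ U, g l) *
        ∏ i ∈ univ.erase k, ∑ U ∈ (P i).powerset.filter (fun U => U.card ≤ b i),
          (-1) ^ U.card * ∏ l ∈ U, g l)
      - (m + 1) * E * ∏ i, ∑ U ∈ (P i).powerset.filter (fun U => U.card ≤ b i + 1),
        (3 : ℝ) ^ U.card ≤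
      ((S.filter (fun ω => ∀ i, ∀ l ∈ P i, ¬ l ∣ n ω)).card : ℝ) := by
  first
    | exact Kba.brun_hooley_abs
    | (apply Kba.brun_hooley_abs <;> assumption)

end Pool.Agent.Helper112.LP
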